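import Pool.Graph.R_seed8.V11202.SQ.Core

/-!
The discrete core of the lower bound, for an arbitrary set of cells of centres.
-/

set_option autoImplicit false

open Finset

namespace Pool.Agent.KS6_90.SQG

open Pool.Agent.V11202.SQ

/-- the discrete lower bound for the number of cells -/
theorem core2 {κ R : ℝ} (hκ : 0 < κ) (hR : 1 ≤ R) : ∃ c : ℝ, 0 < c ∧
    ∀ (m : ℕ) (X G : Finset (ℤ × ℤ)) (x1 x2 θ r : ℤ × ℤ → ℝ)
      (E : Fin 4 → ℤ × ℤ → Finset (ℤ × ℤ)),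
      (∀ z ∈ X, ⌊(2 : ℝ) ^ m * x1 z⌋ = z.1 ∧ ⌊(2 : ℝ) ^ m * x2 z⌋ = z.2 ∧
        (0 ≤ x1 z ∧ x1 z ≤ 1) ∧ (0 ≤ x2 z ∧ x2 z ≤ 1)) →
      (∀ z ∈ X, 0 ≤ θ z ∧ θ z ≤ Real.pi / 2) →
      (∀ i, ∀ z ∈ X, E i z ⊆ G) →
      (∀ i, ∀ z ∈ X, κ * 2 ^ m ≤ ((E i z).card : ℝ)) →
      (∀ i, ∀ z ∈ X, ∀ w ∈ E i z,
        InStrip (θ z + (i : ℕ) * (Real.pi / 2)) (2 ^ m * pos x1 x2 θ r i z) w ∧
          |(w.1 : ℝ)| ≤ R * 2 ^ m ∧ |(w.2 : ℝ)| ≤ R * 2 ^ m) →
      c * ((X.card : ℝ) ^ 3 * (4 ^ m) ^ 4) ≤ (G.card : ℝ) ^ 8 * (m + 1) ^ 20 := by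
  classical
  set H : ℕ := ⌈2 * R + 4⌉₊ with hH
  have hHR : 2 * R + 4 ≤ H := Nat.le_ceil _
  set C2 : ℝ := 279 * R * (4 + (2 * H + 1) ^ 2) with hC2
  have hC2p : 0 < C2 := by positivity
  set C4 : ℝ := 8 * C2 / κ ^ 2 with hC4
  have hC4p : 0 < C4 := by positivity
  set c1 : ℝ := κ ^ 16 / (64 * (2 * C2) ^ 8) with hc1
  set c2 : ℝ := 1 / (32 * C4 ^ 8 * 384 ^ 3) with hc2
  have hc1p : 0 < c1 := by positivity
  have hc2p : 0 < c2 := by positivity
  refine ⟨min c1 c2, lt_min hc1p hc2p, ?_⟩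
  intro m X G x1 x2 θ r E hx hθ hEG hEc hst
  have h4m : (0 : ℝ) < 4 ^ m := by positivity
  have h4m1 : (1 : ℝ) ≤ 4 ^ m := one_le_pow₀ (by norm_num)
  have hm1 : (1 : ℝ) ≤ m + 1 := by
    have : (0 : ℝ) ≤ m := by positivity
    linarith
  rcases X.eq_empty_or_nonempty with h0 | hXne
  · rw [h0, card_empty, Nat.cast_zero]
    have : (0 : ℝ) ≤ (G.card : ℝ) ^ 8 * (m + 1) ^ 20 := by positivity
    simpa using this
  have hXpos : (0 : ℝ) < X.card := by exact_mod_cast hXne.card_pos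
  have hGpos : (0 : ℝ) < G.card := by
    obtain ⟨z, hz⟩ := hXne
    have h1 := hEc 0 z hz
    have h2 : (0 : ℝ) < κ * 2 ^ m := by positivity
    have h3 : ((E 0 z).card : ℝ) ≤ G.card := by exact_mod_cast card_le_card (hEG 0 z hz)
    linarith
  set g : ℝ := (G.card : ℝ) with hg
  set x : ℝ := (X.card : ℝ) with hxc
  have hXu : x ≤ 4 * 4 ^ m := by
    have hsub : X ⊆ (Finset.Icc (0 : ℤ) (2 ^ m)) ×ˢ (Finset.Icc (0 : ℤ) (2 ^ m)) := by
      intro z hz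
      obtain ⟨e1, e2, ⟨a1, a2⟩, ⟨b1, b2⟩⟩ := hx z hz
      have h2 : (0 : ℝ) < 2 ^ m := by positivity
      rw [mem_product, mem_Icc, mem_Icc, ← e1, ← e2]
      refine ⟨⟨Int.floor_nonneg.2 (by positivity), ?_⟩, ⟨Int.floor_nonneg.2 (by positivity), ?_⟩⟩
      · rw [← Int.cast_le (R := ℝ)]
        push_cast
        exact (Int.floor_le _).trans (by nlinarith)
      · rw [← Int.cast_le (R := ℝ)]
        push_cast
        exact (Int.floor_le _).trans (by nlinarith)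
    have h1 := card_le_card hsub
    rw [card_product, Int.card_Icc] at h1
    have h2 : ((2 : ℤ) ^ m + 1 - 0).toNat = 2 ^ m + 1 := by
      have : ((2 : ℤ) ^ m + 1 - 0) = ((2 ^ m + 1 : ℕ) : ℤ) := by push_cast; ring
      rw [this, Int.toNat_natCast]
    rw [h2] at h1
    have h3 : x ≤ (2 ^ m + 1) * (2 ^ m + 1) := by
      rw [hxc]; exact_mod_cast h1
    have h4 : (4 : ℝ) ^ m = 2 ^ m * 2 ^ m := by rw [← mul_pow]; norm_num
    have h5 : (1 : ℝ) ≤ 2 ^ m := one_le_pow₀ (by norm_num)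
    rw [h4]
    nlinarith
  set Y : ℝ := κ ^ 2 * 4 ^ m * x / (8 * C2 * g * (m + 1)) with hY
  have hYp : 0 < Y := by positivity
  by_cases hY4 : x ≤ 4 * Y
  swap
  · push Not at hY4
    rw [hY] at hY4
    have h1 : κ ^ 2 * 4 ^ m ≤ 2 * C2 * g * (m + 1) := by
      have h2 : 4 * (κ ^ 2 * 4 ^ m * x / (8 * C2 * g * (m + 1))) =
          (κ ^ 2 * 4 ^ m) * x / (2 * C2 * g * (m + 1)) := by
        field_simp
        ring
      rw [h2, div_lt_iff₀ (by positivity)] at hY4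
      have : (κ ^ 2 * 4 ^ m) * x ≤ (2 * C2 * g * (m + 1)) * x := by linarith
      exact le_of_mul_le_mul_right this hXpos
    have h2 : (κ ^ 2 * 4 ^ m) ^ 8 ≤ (2 * C2 * g * (m + 1)) ^ 8 :=
      pow_le_pow_left₀ (by positivity) h1 8
    have h3 : c1 * (64 * (4 ^ m) ^ 8) ≤ g ^ 8 * (m + 1) ^ 8 := by
      rw [hc1, div_mul_eq_mul_div, div_le_iff₀ (by positivity)]
      calc κ ^ 16 * (64 * (4 ^ m) ^ 8) = 64 * (κ ^ 2 * 4 ^ m) ^ 8 := by ring
        _ ≤ 64 * (2 * C2 * g * (m + 1)) ^ 8 := by gcongr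
        _ = _ := by ring
    have h4 : x ^ 3 * (4 ^ m) ^ 4 ≤ 64 * (4 ^ m) ^ 8 := by
      calc x ^ 3 * (4 ^ m) ^ 4 ≤ (4 * 4 ^ m) ^ 3 * (4 ^ m) ^ 4 := by gcongr
        _ = 64 * (4 ^ m) ^ 7 := by ring
        _ ≤ 64 * (4 ^ m) ^ 8 := by
            have := pow_le_pow_right₀ h4m1 (show 7 ≤ 8 by norm_num)
            linarith
    calc min c1 c2 * (x ^ 3 * (4 ^ m) ^ 4) ≤ c1 * (64 * (4 ^ m) ^ 8) :=
          mul_le_mul (min_le_left _ _) h4 (by positivity) hc1p.le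
      _ ≤ g ^ 8 * (m + 1) ^ 8 := h3
      _ ≤ _ := by
          have := pow_le_pow_right₀ hm1 (show 8 ≤ 20 by norm_num)
          gcongr
  -- the main case
  obtain ⟨Pr, hPr⟩ : ∃ Pr : Fin 4 → ℤ × ℤ → Prop, ∀ i z, Pr i z ↔ (∀ k ∈ range (m + 1),
    2 ^ k * ((X.filter (fun z' => cell k θ (pos x1 x2 θ r i) z' =
      cell k θ (pos x1 x2 θ r i) z)).card : ℝ) ≤ Y) := ⟨_, fun _ _ => Iff.rfl⟩
  set Good : Fin 4 → Finset (ℤ × ℤ) := fun i => X.filter (Pr i) with hGood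
  have hGm : ∀ i z, z ∈ Good i ↔ z ∈ X ∧ ∀ k ∈ range (m + 1),
      2 ^ k * ((X.filter (fun z' => cell k θ (pos x1 x2 θ r i) z' =
      cell k θ (pos x1 x2 θ r i) z)).card : ℝ) ≤ Y := by
    intro i z
    rw [← hPr]
    simp only [hGood, mem_filter]
  have hGX : ∀ i, ∀ z ∈ Good i, z ∈ X := fun i z hz => ((hGm i z).1 hz).1
  clear_value Good
  have hGc : ∀ i, ((Good i).card : ℝ) ≤ x / 8 := by
    intro i
    have h1 := l2 m (Good i) θ (pos x1 x2 θ r i) ((i : ℕ) * (Real.pi / 2)) (E i) G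
      (κ := κ) (R := R) (Y := Y) H hκ hR hHR
      (fun z hz => hEG i z (hGX i z hz)) (fun z hz => hEc i z (hGX i z hz))
      (fun z hz => hst i z (hGX i z hz))
      (fun z hz z' hz' => by
        have a1 := hθ z (hGX i z hz)
        have a2 := hθ z' (hGX i z' hz')
        rw [abs_le]
        constructor <;> linarith [a1.1, a1.2, a2.1, a2.2])
      (by
        have : ((Good i).card : ℝ) ≤ X.card := by
          exact_mod_cast card_le_card (fun z hz => hGX i z hz)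
        linarith)
      (by
        intro k hk q
        rcases ((Good i).filter (fun z => cell k θ (pos x1 x2 θ r i) z = q)).eq_empty_or_nonempty
          with h0 | ⟨z, hz⟩
        · rw [h0]; simp; exact hYp.le
        · obtain ⟨hz1, hz2⟩ := mem_filter.1 hz
          have h3 := ((hGm i z).1 hz1).2 k (mem_range.2 (by omega))
          rw [hz2] at h3
          refine le_trans ?_ h3
          apply mul_le_mul_of_nonneg_left _ (by positivity)
          norm_cast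
          apply card_le_card
          intro z' hz'
          rw [mem_filter] at hz' ⊢
          exact ⟨hGX i z' hz'.1, hz'.2⟩)
    have h2 : g * (C2 * (m + 1) * Y) = (κ ^ 2 * 4 ^ m) * (x / 8) := by
      rw [hY]
      field_simp
    have h3 : (κ ^ 2 * 4 ^ m) * ((Good i).card : ℝ) ≤ (κ ^ 2 * 4 ^ m) * (x / 8) := by
      rw [← h2]; exact h1
    exact le_of_mul_le_mul_left h3 (by positivity)
  set X' := X.filter (fun z => ∀ i, z ∉ Good i) with hX'
  have hX'c : x / 2 ≤ X'.card := by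
    have hsub : X ⊆ X' ∪ univ.biUnion Good := by
      intro z hz
      by_cases h : ∀ i, z ∉ Good i
      · exact mem_union_left _ (mem_filter.2 ⟨hz, h⟩)
      · push Not at h
        obtain ⟨i, hi⟩ := h
        exact mem_union_right _ (mem_biUnion.2 ⟨i, mem_univ _, hi⟩)
    have h1 := (card_le_card hsub).trans (card_union_le _ _)
    have h2 : (univ.biUnion Good).card ≤ ∑ i, (Good i).card := card_biUnion_le
    have h3 : (X.card : ℝ) ≤ X'.card + ∑ i, ((Good i).card : ℝ) := by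
      exact_mod_cast h1.trans (Nat.add_le_add_left h2 _)
    have h4 : ∑ i, ((Good i).card : ℝ) ≤ ∑ _i : Fin 4, x / 8 :=
      sum_le_sum fun i _ => hGc i
    rw [sum_const, card_univ, Fintype.card_fin, nsmul_eq_mul] at h4
    push_cast at h4
    linarith
  have hbad : ∀ z ∈ X', ∀ i, ∃ k ≤ m, Y < 2 ^ k * ((X.filter (fun z' =>
      cell k θ (pos x1 x2 θ r i) z' = cell k θ (pos x1 x2 θ r i) z)).card : ℝ) := by
    intro z hz i
    obtain ⟨hzX, hzn⟩ := mem_filter.1 hz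
    have h1 := hzn i
    rw [hGm, not_and] at h1
    have h2 := h1 hzX
    push Not at h2
    obtain ⟨k, hk, hk2⟩ := h2
    exact ⟨k, by rw [mem_range] at hk; omega, hk2⟩
  have hbad' : ∀ z : ℤ × ℤ, ∀ i : Fin 4, ∃ k : Fin (m + 1), z ∈ X' → Y < 2 ^ (k : ℕ) *
      ((X.filter (fun z' => cell k θ (pos x1 x2 θ r i) z' =
        cell k θ (pos x1 x2 θ r i) z)).card : ℝ) := by
    intro z i
    by_cases hz : z ∈ X'
    · obtain ⟨k, hk, hk2⟩ := hbad z hz i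
      exact ⟨⟨k, by omega⟩, fun _ => hk2⟩
    · exact ⟨0, fun h => absurd h hz⟩
  choose kk hkk using hbad'
  obtain ⟨K, -, hKc⟩ := exists_le_card_fiber_of_nsmul_le_card_of_maps_to
    (s := X') (t := (univ : Finset (Fin 4 → Fin (m + 1)))) (f := kk)
    (b := x / 2 / (m + 1) ^ 4) (fun _ _ => mem_univ _) univ_nonempty (by
      rw [card_univ, Fintype.card_fun, Fintype.card_fin, Fintype.card_fin, nsmul_eq_mul]
      push_cast
      rw [mul_div_cancel₀ _ (by positivity)]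
      exact hX'c)
  set X2 := X'.filter (fun z => kk z = K) with hX2
  set A : ℝ := x / Y with hA
  have hAp : 0 < A := by positivity
  have hcl := fun (t : ℝ) (ht : 0 < t) => classBound (t := t) X2 x1 x2 θ r (m := m)
    (fun z hz => by
      obtain ⟨e1, e2, ⟨a1, a2⟩, ⟨b1, b2⟩⟩ := hx z (mem_filter.1 (mem_filter.1 hz).1).1
      exact ⟨e1, e2, abs_le.2 ⟨by linarith, a2⟩, abs_le.2 ⟨by linarith, b2⟩⟩)
    (fun i => ((K i : Fin (m + 1)) : ℕ)) (fun i => Nat.lt_succ_iff.1 (K i).2)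
    (fun i => Hv X (cell (K i) θ (pos x1 x2 θ r i)) (2 ^ ((K i : Fin (m + 1)) : ℕ)) Y) hAp
    (fun i => Hv_card X _ (by positivity) hYp)
    (fun z hz i => by
      obtain ⟨hz1, hz2⟩ := mem_filter.1 hz
      have h1 := hkk z i hz1
      rw [hz2] at h1
      exact mem_Hv (mem_filter.1 hz1).1 h1) ht
  have hAle : A = C4 * g * (m + 1) / 4 ^ m := by
    rw [hA, hY, hC4]
    field_simp
  set η : ℝ := x / (384 * (m + 1) ^ 4 * 4 ^ m) with hη
  have hηp : 0 < η := by positivity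
  have hkey : η ^ 3 ≤ 32 * A ^ 8 * 4 ^ m := by
    have ht : 0 < η / (4 * A ^ 3) := by positivity
    have h1 := hKc.trans (hcl _ ht)
    have h2 : x / 2 / (m + 1) ^ 4 = 192 * 4 ^ m * η := by
      rw [hη]; field_simp; norm_num
    rw [h2] at h1
    have h3 := le_of_mul_le_mul_left h1 (by positivity)
    have h4 : 2 * (η / (4 * A ^ 3)) * A ^ 3 = η / 2 := by field_simp; ring
    have h5 : A ^ 2 * 4 ^ m / (η / (4 * A ^ 3)) ^ 2 = 16 * A ^ 8 * 4 ^ m / η ^ 2 := by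
      field_simp
      ring
    rw [h4, h5] at h3
    have h6 : η / 2 ≤ 16 * A ^ 8 * 4 ^ m / η ^ 2 := by linarith
    rw [le_div_iff₀ (by positivity)] at h6
    nlinarith
  have h7 : η ^ 3 ≤ 32 * (C4 * g * (m + 1) / 4 ^ m) ^ 8 * 4 ^ m := by
    rw [← hAle]; exact hkey
  have h8 : c2 * (x ^ 3 * (4 ^ m) ^ 4) ≤ g ^ 8 * (m + 1) ^ 20 := by
    have h9 : (4 ^ m) ^ 7 * η ^ 3 ≤ 32 * C4 ^ 8 * (g ^ 8 * (m + 1) ^ 8) := by
      calc (4 ^ m) ^ 7 * η ^ 3 ≤ (4 ^ m) ^ 7 * (32 * (C4 * g * (m + 1) / 4 ^ m) ^ 8 * 4 ^ m) := by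
            gcongr
        _ = _ := by field_simp
    have h10 : (4 ^ m : ℝ) ^ 7 * η ^ 3 = x ^ 3 * (4 ^ m) ^ 4 / (384 ^ 3 * (m + 1) ^ 12) := by
      rw [hη]; field_simp
    rw [h10, div_le_iff₀ (by positivity)] at h9
    rw [hc2, one_div, inv_mul_le_iff₀ (by positivity)]
    calc _ ≤ _ := h9
      _ = _ := by ring
  calc min c1 c2 * (x ^ 3 * (4 ^ m) ^ 4) ≤ c2 * (x ^ 3 * (4 ^ m) ^ 4) :=
        mul_le_mul_of_nonneg_right (min_le_right _ _) (by positivity)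
    _ ≤ _ := h8

end Pool.Agent.KS6_90.SQG
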