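import Pool.Graph.R_seed8.V11202.SQ.Exh

/-!
The limit steps, for a general exponent.
-/

set_option autoImplicit false

open MeasureTheory Set Filter Topology

namespace Pool.Agent.KS6_90.SQG

open Pool.Agent.V11202.SQ

/-- the lower bound for the number of cells at the level `m` -/
def PP (K : Set ℂ) (c a : ℝ) (m : ℕ) : Prop :=
  ∀ G : Finset (ℤ × ℤ), (∀ y ∈ K, pc m y ∈ G) →
    c * (2 : ℝ) ^ (8 * a * m) ≤ (G.card : ℝ) ^ 8 * (m + 1) ^ 20

theorem basic {K : Set ℂ} (hK : Bornology.IsBounded K) {c a : ℝ} (hc : 0 < c) (ha : 0 ≤ a)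
    {δ : ℝ} (h0 : 0 < δ) {m : ℕ} (hm1 : (2 : ℝ) ^ m ≤ 1 / δ)
    (hm2 : 1 / δ < (2 : ℝ) ^ (m + 1)) (h : PP K c a m) :
    8 * a * (-Real.log δ) - 20 * Real.log (2 * (-Real.log δ) + 1) -
      (8 * Real.log 9 + 8 * a * Real.log 2 - Real.log c) ≤ 8 * Real.log (coverNum K δ) := by
  have h2 : (0 : ℝ) < 2 ^ m := by positivity
  have hδm : δ ≤ 1 / 2 ^ m := by
    rw [le_div_iff₀ h2]
    rw [le_div_iff₀ h0] at hm1
    linarith
  obtain ⟨G, hG1, hG2⟩ := cells_upper hK h0 hδm
  have h3 := h G hG1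
  set N : ℝ := (coverNum K δ : ℝ) with hN
  have hGN : (G.card : ℝ) ≤ 9 * N := by
    rw [hN]
    exact_mod_cast hG2
  have h4 : c * (2 : ℝ) ^ (8 * a * m) ≤ (9 * N) ^ 8 * (m + 1) ^ 20 :=
    h3.trans (by gcongr)
  have hcp : 0 < c * (2 : ℝ) ^ (8 * a * m) := mul_pos hc (Real.rpow_pos_of_pos (by norm_num) _)
  have hNp : 0 < N := by
    have hN0 : 0 ≤ N := by rw [hN]; positivity
    rcases eq_or_lt_of_le hN0 with h5 | h5
    · rw [← h5] at h4
      norm_num at h4
      linarith
    · exact h5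
  have h6 := Real.log_le_log hcp h4
  rw [Real.log_mul hc.ne' (Real.rpow_pos_of_pos (by norm_num) _).ne',
    Real.log_rpow (by norm_num), Real.log_mul (by positivity)
    (by positivity), Real.log_pow, Real.log_pow, Real.log_mul (by norm_num) hNp.ne'] at h6
  push_cast at h6
  have hL : -Real.log δ = Real.log (1 / δ) := by rw [one_div, Real.log_inv]
  have h7 : -Real.log δ ≤ (m + 1) * Real.log 2 := by
    rw [hL]
    have := Real.log_le_log (by positivity) hm2.le
    rw [Real.log_pow] at this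
    push_cast at this
    exact this
  have h8 : (m : ℝ) * Real.log 2 ≤ -Real.log δ := by
    rw [hL]
    have := Real.log_le_log (by positivity) hm1
    rwa [Real.log_pow] at this
  have hl2 : 1 / 2 < Real.log 2 := by
    have := Real.log_two_gt_d9
    linarith
  have hm0 : (0 : ℝ) ≤ m := by positivity
  have h9 : (m : ℝ) + 1 ≤ 2 * (-Real.log δ) + 1 := by nlinarith
  have h10 : Real.log ((m : ℝ) + 1) ≤ Real.log (2 * (-Real.log δ) + 1) :=
    Real.log_le_log (by positivity) h9
  have h11 : 8 * a * (-Real.log δ) ≤ 8 * a * ((m + 1) * Real.log 2) :=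
    mul_le_mul_of_nonneg_left h7 (by positivity)
  nlinarith

theorem large {a s C : ℝ} (hsa : s < a) : ∀ᶠ L : ℝ in atTop,
    8 * s * L ≤ 8 * a * L - 20 * Real.log (2 * L + 1) - C := by
  set ε : ℝ := a - s with hε
  have hε0 : 0 < ε := by rw [hε]; linarith
  have h1 : ∀ᶠ x : ℝ in atTop, Real.log x ≤ ε / 10 * x := by
    have := Real.isLittleO_log_id_atTop.bound (show 0 < ε / 10 by positivity)
    filter_upwards [this, eventually_ge_atTop 1] with x hx hx1
    rw [id, Real.norm_of_nonneg (by linarith : (0 : ℝ) ≤ x)] at hx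
    exact (le_abs_self _).trans hx
  have h2 : Tendsto (fun L : ℝ => 2 * L + 1) atTop atTop :=
    tendsto_atTop_add_const_right _ _ (tendsto_id.const_mul_atTop (by norm_num))
  filter_upwards [h2.eventually h1, eventually_ge_atTop ((2 * ε + C) / (4 * ε))] with L hL1 hL2
  rw [div_le_iff₀ (by positivity)] at hL2
  have : a = s + ε := by rw [hε]; ring
  rw [this]
  nlinarith

theorem logtop : Tendsto (fun δ : ℝ => -Real.log δ) (𝓝[>] 0) atTop :=
  tendsto_neg_atBot_atTop.comp Real.tendsto_log_nhdsGT_zero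

theorem lower_of {K : Set ℂ} (hK : Bornology.IsBounded K) {c a : ℝ} (hc : 0 < c) (ha : 0 ≤ a)
    (h : ∀ᶠ m : ℕ in atTop, PP K c a m) : (a : EReal) ≤ lowerBoxDim K := by
  by_contra hcon
  push Not at hcon
  obtain ⟨s, hs1, hs2⟩ := EReal.lt_iff_exists_real_btwn.1 hcon
  have hs : s < a := by exact_mod_cast hs2
  obtain ⟨M, hM⟩ := eventually_atTop.1 h
  have hev : ∀ᶠ δ in 𝓝[>] (0 : ℝ), (s : EReal) ≤
      ((Real.log (coverNum K δ) / -Real.log δ : ℝ) : EReal) := by
    have h01 : ∀ᶠ δ : ℝ in 𝓝[>] 0, δ < 1 / 2 ^ (M + 1) :=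
      (eventually_lt_nhds (show (0 : ℝ) < 1 / 2 ^ (M + 1) by positivity)).filter_mono
        nhdsWithin_le_nhds
    filter_upwards [logtop.eventually (large (C := 8 * Real.log 9 + 8 * a * Real.log 2 -
      Real.log c) hs), h01, self_mem_nhdsWithin, logtop.eventually_gt_atTop 0] with
      δ hδA hδ1 hδ0 hLpos
    have hδ0' : (0 : ℝ) < δ := hδ0
    have h2p : (1 : ℝ) ≤ 2 ^ (M + 1) := one_le_pow₀ (by norm_num)
    rw [lt_div_iff₀ (by positivity)] at hδ1
    obtain ⟨m, hm1, hm2⟩ := exists_nat_pow_near (x := 1 / δ) (y := (2 : ℝ))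
      (by rw [le_div_iff₀ hδ0']; nlinarith) (by norm_num)
    have hMm : M ≤ m := by
      have h5 : (2 : ℝ) ^ (M + 1) < 2 ^ (m + 1) := by
        refine lt_trans ?_ hm2
        rw [lt_div_iff₀ hδ0']
        linarith
      have := (pow_lt_pow_iff_right₀ (by norm_num : (1 : ℝ) < 2)).1 h5
      omega
    have h1 := basic hK hc ha hδ0' hm1 hm2 (hM m hMm)
    norm_cast
    rw [le_div_iff₀ hLpos]
    linarith
  have h1 : (s : EReal) ≤ lowerBoxDim K := le_liminf_of_le (by isBoundedDefault) hev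
  exact absurd h1 (not_le.2 hs1)

theorem upper_of {K : Set ℂ} (hK : Bornology.IsBounded K) {c a : ℝ} (hc : 0 < c) (ha : 0 ≤ a)
    (h : ∃ᶠ m : ℕ in atTop, PP K c a m) : (a : EReal) ≤ upperBoxDim K := by
  by_contra hcon
  push Not at hcon
  obtain ⟨s, hs1, hs2⟩ := EReal.lt_iff_exists_real_btwn.1 hcon
  have hs : s < a := by exact_mod_cast hs2
  have ht : Tendsto (fun m : ℕ => (1 / 2 : ℝ) ^ m) atTop (𝓝[>] 0) :=
    tendsto_nhdsWithin_iff.2 ⟨tendsto_pow_atTop_nhds_zero_of_lt_one (by norm_num) (by norm_num),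
      Eventually.of_forall fun m => by
        change (0 : ℝ) < _
        positivity⟩
  have hfr : ∃ᶠ δ in 𝓝[>] (0 : ℝ), (s : EReal) ≤
      ((Real.log (coverNum K δ) / -Real.log δ : ℝ) : EReal) := by
    refine ht.frequently ((h.and_eventually ((ht.eventually (logtop.eventually (large
      (C := 8 * Real.log 9 + 8 * a * Real.log 2 - Real.log c) hs))).and
        (ht.eventually (logtop.eventually_gt_atTop 0)))).mono ?_)
    rintro m ⟨hP, hδA, hLpos⟩
    have e : 1 / (1 / 2 : ℝ) ^ m = 2 ^ m := by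
      rw [one_div, one_div, inv_pow, inv_inv]
    have h1 := basic hK hc ha (δ := (1 / 2 : ℝ) ^ m) (by positivity) (m := m) (by rw [e])
      (by rw [e]; exact pow_lt_pow_right₀ (by norm_num) (Nat.lt_succ_self m)) hP
    norm_cast
    rw [le_div_iff₀ hLpos]
    linarith
  have h1 : (s : EReal) ≤ upperBoxDim K :=
    le_limsup_of_frequently_le hfr (by isBoundedDefault)
  exact absurd h1 (not_le.2 hs1)

/-- the upper box dimension of a finite union is at most the supremum -/
theorem union_upper (L : ℕ → Set ℂ) (hL : ∀ i, Bornology.IsBounded (L i)) (n : ℕ) :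
    upperBoxDim (accumulate L n) ≤ ⨆ i, upperBoxDim (L i) := by
  by_contra hcon
  push Not at hcon
  obtain ⟨s, hs1, hs2⟩ := EReal.lt_iff_exists_real_btwn.1 hcon
  obtain ⟨s', hs3, hs4⟩ := EReal.lt_iff_exists_real_btwn.1 hs2
  have hss : s < s' := by exact_mod_cast hs3
  have h1 : ∀ i, ∀ᶠ δ in 𝓝[>] (0 : ℝ),
      ((Real.log (coverNum (L i) δ) / -Real.log δ : ℝ) : EReal) < s := by
    intro i
    exact eventually_lt_of_limsup_lt ((le_iSup (fun i => upperBoxDim (L i)) i).trans_lt hs1)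
      (by isBoundedDefault)
  have hall : ∀ᶠ δ in 𝓝[>] (0 : ℝ), ∀ i ∈ Finset.range (n + 1),
      ((Real.log (coverNum (L i) δ) / -Real.log δ : ℝ) : EReal) < s := by
    rw [Filter.eventually_all_finset]
    intro i _
    exact h1 i
  have hsub : ∀ δ : ℝ, 0 < δ → coverNum (accumulate L n) δ ≤
      ∑ i : Fin (n + 1), coverNum (L i) δ := by
    intro δ hδ
    choose U hU hKU using fun i : Fin (n + 1) => coverNum_spec (hL i) hδ
    have := coverNum_le (K := accumulate L n) (δ := δ)
      (ι := Σ i : Fin (n + 1), Fin (coverNum (L i) δ)) (fun p => U p.1 p.2) (fun p => hU p.1 p.2)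
      (by
        intro y hy
        obtain ⟨i, hi, hyi⟩ := mem_accumulate.1 hy
        obtain ⟨j, hj⟩ := mem_iUnion.1 (hKU ⟨i, by omega⟩ hyi)
        rw [mem_iUnion]
        exact ⟨⟨⟨i, by omega⟩, j⟩, hj⟩)
    rw [Fintype.card_sigma] at this
    simpa using this
  have hLt : Tendsto (fun δ : ℝ => -Real.log δ) (𝓝[>] 0) atTop :=
    tendsto_neg_atBot_atTop.comp Real.tendsto_log_nhdsGT_zero
  have hev : ∀ᶠ δ in 𝓝[>] (0 : ℝ),
      ((Real.log (coverNum (accumulate L n) δ) / -Real.log δ : ℝ) : EReal) ≤ s' := by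
    have hbig : ∀ᶠ L : ℝ in atTop, Real.log (n + 1) ≤ (s' - s) * L := by
      filter_upwards [eventually_ge_atTop (Real.log (n + 1) / (s' - s))] with x hx
      rw [div_le_iff₀ (by linarith)] at hx
      linarith
    filter_upwards [hall, hLt.eventually hbig, self_mem_nhdsWithin, hLt.eventually_gt_atTop 0] with
      δ hδa hδb hδ0 hLpos
    have hi : ∀ i : Fin (n + 1), Real.log (coverNum (L i) δ) < s * (-Real.log δ) := by
      intro i
      have h3 := hδa i (Finset.mem_range.2 i.2)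
      rw [EReal.coe_lt_coe_iff, div_lt_iff₀ hLpos] at h3
      exact h3
    have hpos : 0 ≤ s * (-Real.log δ) := by
      have h3 := hi 0
      have h4 : 0 ≤ Real.log (coverNum (L ((0 : Fin (n + 1)) : ℕ)) δ) := Real.log_natCast_nonneg _
      linarith
    have hiN : ∀ i : Fin (n + 1), (coverNum (L i) δ : ℝ) ≤ Real.exp (s * (-Real.log δ)) := by
      intro i
      rcases Nat.eq_zero_or_pos (coverNum (L i) δ) with h0 | h0
      · rw [h0, Nat.cast_zero]; positivity
      · have h5 : (0 : ℝ) < coverNum (L i) δ := by exact_mod_cast h0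
        rw [← Real.log_le_iff_le_exp h5]
        exact (hi i).le
    have hN : (coverNum (accumulate L n) δ : ℝ) ≤ (n + 1) * Real.exp (s * (-Real.log δ)) := by
      have h3 : (coverNum (accumulate L n) δ : ℝ) ≤ ∑ i : Fin (n + 1), (coverNum (L i) δ : ℝ) := by
        exact_mod_cast hsub δ hδ0
      refine h3.trans ((Finset.sum_le_sum fun i _ => hiN i).trans (le_of_eq ?_))
      rw [Finset.sum_const, Finset.card_univ, Fintype.card_fin, nsmul_eq_mul]
      push_cast
      ring
    norm_cast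
    rw [div_le_iff₀ hLpos]
    rcases Nat.eq_zero_or_pos (coverNum (accumulate L n) δ) with h0 | h0
    · rw [h0, Nat.cast_zero, Real.log_zero]
      nlinarith
    · have h5 : (0 : ℝ) < coverNum (accumulate L n) δ := by exact_mod_cast h0
      have h6 := Real.log_le_log h5 hN
      rw [Real.log_mul (by positivity) (by positivity), Real.log_exp] at h6
      linarith
  have h2 : upperBoxDim (accumulate L n) ≤ s' := by
    unfold upperBoxDim
    exact limsup_le_of_le (by isBoundedDefault) hev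
  exact absurd h2 (not_le.2 hs4)

end Pool.Agent.KS6_90.SQG
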