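import Pool.Agent.KS6_90.SQG.Red2
import Pool.Agent.KS6_90.SQG.Dim2

/-!
Exhaustion, counting cells of the set of centres, and the two dimension bounds.
-/

set_option autoImplicit false

open MeasureTheory Set Filter Topology

namespace Pool.Agent.KS6_90.SQG

open Pool.Agent.V11202.SQ

open Classical in
/-- the cells of level `m` of the unit square which meet `S` -/
noncomputable def cellsOf (S : Set ℂ) (m : ℕ) : Finset (ℤ × ℤ) :=
  ((Finset.Icc (0 : ℤ) (2 ^ m)) ×ˢ (Finset.Icc (0 : ℤ) (2 ^ m))).filter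
    (fun z => ∃ x ∈ S, pc m x = z)

open Classical in
theorem cells_ex {S : Set ℂ} {m : ℕ} : ∀ z ∈ cellsOf S m, ∃ x ∈ S, pc m x = z :=
  fun _ hz => (Finset.mem_filter.1 hz).2

open Classical in
theorem mem_cells {S : Set ℂ} (hS : S ⊆ Q) {m : ℕ} {x : ℂ} (hx : x ∈ S) :
    pc m x ∈ cellsOf S m := by
  have h2 : (0 : ℝ) < 2 ^ m := by positivity
  obtain ⟨⟨a1, a2⟩, ⟨b1, b2⟩⟩ := hS hx
  rw [cellsOf, Finset.mem_filter, Finset.mem_product, Finset.mem_Icc, Finset.mem_Icc]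
  refine ⟨⟨⟨Int.floor_nonneg.2 (by positivity), ?_⟩, ⟨Int.floor_nonneg.2 (by positivity), ?_⟩⟩,
    x, hx, rfl⟩
  · rw [← Int.cast_le (R := ℝ)]
    push_cast
    exact (Int.floor_le _).trans (by nlinarith)
  · rw [← Int.cast_le (R := ℝ)]
    push_cast
    exact (Int.floor_le _).trans (by nlinarith)

theorem cell_diam (m : ℕ) (z : ℤ × ℤ) :
    Metric.ediam {y : ℂ | pc m y = z} ≤ ENNReal.ofReal (2 / 2 ^ m) := by
  apply Metric.ediam_le
  intro a ha b hb
  rw [edist_dist, dist_eq_norm]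
  exact ENNReal.ofReal_le_ofReal (pc_dist (ha.trans hb.symm))

theorem cnt_H {S : Set ℂ} (hS : S ⊆ Q) {s : ℝ} (hs : 0 ≤ s) (h : ENNReal.ofReal s < dimH S) :
    ∀ᶠ m : ℕ in atTop, (2 : ℝ) ^ (s * ((m : ℝ) - 2)) ≤ (cellsOf S m).card := by
  have h1 : μH[s] S = ⊤ := by
    have := hausdorffMeasure_of_lt_dimH (d := s.toNNReal) h
    rwa [Real.coe_toNNReal s hs] at this
  have hr : Tendsto (fun m : ℕ => ENNReal.ofReal (2 / 2 ^ m)) atTop (𝓝 0) := by
    rw [← ENNReal.ofReal_zero]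
    refine ENNReal.tendsto_ofReal ?_
    have := (tendsto_pow_atTop_nhds_zero_of_lt_one (r := (1 / 2 : ℝ)) (by norm_num)
      (by norm_num)).const_mul 2
    rw [mul_zero] at this
    refine this.congr fun m => ?_
    rw [one_div, inv_pow, div_eq_mul_inv]
  have h2 := Measure.hausdorffMeasure_le_liminf_sum s S (l := atTop)
    (fun m : ℕ => ENNReal.ofReal (2 / 2 ^ m)) hr
    (fun m (z : cellsOf S m) => {y : ℂ | pc m y = z.1})
    (Eventually.of_forall fun m z => cell_diam m z.1)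
    (Eventually.of_forall fun m x hx => mem_iUnion.2 ⟨⟨pc m x, mem_cells hS hx⟩, rfl⟩)
  rw [h1, top_le_iff] at h2
  by_contra hcon
  rw [not_eventually] at hcon
  have h3 : liminf (fun m : ℕ => ∑ z : cellsOf S m, Metric.ediam {y : ℂ | pc m y = z.1} ^ s) atTop
      ≤ 1 := by
    refine liminf_le_of_frequently_le (hcon.mono fun m hm => ?_) (by isBoundedDefault)
    rw [not_le] at hm
    have h4 : ∑ z : cellsOf S m, Metric.ediam {y : ℂ | pc m y = z.1} ^ s ≤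
        ∑ _z : cellsOf S m, (ENNReal.ofReal (2 / 2 ^ m)) ^ s :=
      Finset.sum_le_sum fun z _ => ENNReal.rpow_le_rpow (cell_diam m z.1) hs
    refine h4.trans ?_
    rw [Finset.sum_const, Finset.card_univ, Fintype.card_coe, nsmul_eq_mul,
      ENNReal.ofReal_rpow_of_nonneg (by positivity) hs, ← ENNReal.ofReal_natCast,
      ← ENNReal.ofReal_mul (by positivity), ← ENNReal.ofReal_one]
    refine ENNReal.ofReal_le_ofReal ?_
    have e1 : (2 / 2 ^ m : ℝ) = (2 : ℝ) ^ (1 - (m : ℝ)) := by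
      rw [Real.rpow_sub (by norm_num), Real.rpow_one, Real.rpow_natCast]
    have h5 : ((cellsOf S m).card : ℝ) * (2 / 2 ^ m) ^ s ≤
        (2 : ℝ) ^ (s * ((m : ℝ) - 2)) * (2 / 2 ^ m) ^ s :=
      mul_le_mul_of_nonneg_right hm.le (by positivity)
    refine h5.trans ?_
    rw [e1, ← Real.rpow_mul (by norm_num), ← Real.rpow_add (by norm_num)]
    refine Real.rpow_le_one_of_one_le_of_nonpos (by norm_num) ?_
    nlinarith
  rw [h2] at h3
  exact absurd h3 (by simp)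

theorem cnt_P {S : Set ℂ} (hS : S ⊆ Q) {s : ℝ} (hs : 0 ≤ s) (h : (s : EReal) < upperBoxDim S) :
    ∃ᶠ m : ℕ in atTop, (2 : ℝ) ^ (s * ((m : ℝ) - 2)) ≤ (cellsOf S m).card := by
  by_contra hcon
  rw [not_frequently] at hcon
  obtain ⟨M, hM⟩ := eventually_atTop.1 hcon
  have h1 := frequently_lt_of_lt_limsup (by isBoundedDefault) h
  have h01 : ∀ᶠ δ : ℝ in 𝓝[>] 0, δ < 1 / 2 ^ (M + 1) :=
    (eventually_lt_nhds (show (0 : ℝ) < 1 / 2 ^ (M + 1) by positivity)).filter_mono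
      nhdsWithin_le_nhds
  obtain ⟨δ, hδ, hδ1, hδ0, hLpos⟩ := (h1.and_eventually (h01.and
    (eventually_mem_nhdsWithin.and (logtop.eventually_gt_atTop 0)))).exists
  have hδ0' : (0 : ℝ) < δ := hδ0
  rw [EReal.coe_lt_coe_iff, lt_div_iff₀ hLpos] at hδ
  have h2p : (1 : ℝ) ≤ 2 ^ (M + 1) := one_le_pow₀ (by norm_num)
  rw [lt_div_iff₀ (by positivity)] at hδ1
  obtain ⟨m, hm1, hm2⟩ := exists_nat_pow_near (x := 1 / δ) (y := (2 : ℝ))
    (by rw [le_div_iff₀ hδ0']; nlinarith) (by norm_num)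
  have hMm : M ≤ m := by
    have h5 : (2 : ℝ) ^ (M + 1) < 2 ^ (m + 1) := by
      refine lt_trans ?_ hm2
      rw [lt_div_iff₀ hδ0']
      linarith
    have := (pow_lt_pow_iff_right₀ (by norm_num : (1 : ℝ) < 2)).1 h5
    omega
  have h6 := hM (m + 2) (by omega)
  rw [not_le] at h6
  have h7 : coverNum S δ ≤ (cellsOf S (m + 2)).card := by
    have := coverNum_le (K := S) (δ := δ) (ι := cellsOf S (m + 2))
      (fun z => {y : ℂ | pc (m + 2) y = z.1}) (fun z => (cell_diam (m + 2) z.1).trans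
        (ENNReal.ofReal_le_ofReal (by
          have e : (2 : ℝ) / 2 ^ (m + 2) = 1 / 2 ^ (m + 1) := by
            rw [pow_succ (2 : ℝ) (m + 1)]; field_simp
          rw [e, div_le_iff₀ (by positivity)]
          rw [div_lt_iff₀ hδ0'] at hm2
          linarith)))
      (fun x hx => mem_iUnion.2 ⟨⟨pc (m + 2) x, mem_cells hS hx⟩, rfl⟩)
    rwa [Fintype.card_coe] at this
  have h8 : (coverNum S δ : ℝ) ≤ (2 : ℝ) ^ (s * (m : ℝ)) := by
    have e : (s * (((m + 2 : ℕ) : ℝ) - 2)) = s * (m : ℝ) := by push_cast; ring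
    rw [e] at h6
    exact (by exact_mod_cast h7 : (coverNum S δ : ℝ) ≤ (cellsOf S (m + 2)).card).trans h6.le
  have h9 : (m : ℝ) * Real.log 2 ≤ -Real.log δ := by
    have hL : -Real.log δ = Real.log (1 / δ) := by rw [one_div, Real.log_inv]
    rw [hL]
    have := Real.log_le_log (by positivity) hm1
    rwa [Real.log_pow] at this
  rcases Nat.eq_zero_or_pos (coverNum S δ) with h0 | h0
  · rw [h0, Nat.cast_zero, Real.log_zero] at hδ
    nlinarith
  · have h10 : (0 : ℝ) < coverNum S δ := by exact_mod_cast h0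
    have h11 := Real.log_le_log h10 h8
    rw [Real.log_rpow (by norm_num)] at h11
    nlinarith

theorem cnt_0 {S : Set ℂ} (hS : S ⊆ Q) (h : S.Nonempty) (m : ℕ) :
    (2 : ℝ) ^ ((0 : ℝ) * ((m : ℝ) - 2)) ≤ (cellsOf S m).card := by
  obtain ⟨x, hx⟩ := h
  rw [zero_mul, Real.rpow_zero]
  exact_mod_cast Finset.card_pos.2 ⟨_, mem_cells hS hx⟩

/-- the discrete bound, for a set `K` and a set of centres `S` -/
def Cells (K S : Set ℂ) (c : ℝ) : Prop :=
  ∀ (m : ℕ) (X G : Finset (ℤ × ℤ)), (∀ z ∈ X, ∃ x ∈ S, pc m x = z) → (∀ y ∈ K, pc m y ∈ G) →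
    c * ((X.card : ℝ) ^ 3 * (4 ^ m) ^ 4) ≤ (G.card : ℝ) ^ 8 * (m + 1) ^ 20

theorem pp_of {K S : Set ℂ} {c s : ℝ} (hc : 0 < c) (h : Cells K S c) {m : ℕ}
    (hm : (2 : ℝ) ^ (s * ((m : ℝ) - 2)) ≤ (cellsOf S m).card) :
    PP K (c * (2 : ℝ) ^ (-(6 * s))) (1 + 3 / 8 * s) m := fun G hG => by
  refine le_trans ?_ (h m _ G cells_ex hG)
  have h1 : (2 : ℝ) ^ (-(6 * s)) * (2 : ℝ) ^ (8 * (1 + 3 / 8 * s) * m) =
      ((2 : ℝ) ^ (s * ((m : ℝ) - 2))) ^ 3 * (4 ^ m) ^ 4 := by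
    have e1 : ((4 : ℝ) ^ m) ^ 4 = (2 : ℝ) ^ (8 * (m : ℝ)) := by
      rw [show (4 : ℝ) = 2 ^ 2 by norm_num, ← pow_mul, ← pow_mul, ← Real.rpow_natCast]
      congr 1
      push_cast
      ring
    have e2 : ((2 : ℝ) ^ (s * ((m : ℝ) - 2))) ^ 3 = (2 : ℝ) ^ (s * ((m : ℝ) - 2) * 3) := by
      rw [← Real.rpow_natCast, ← Real.rpow_mul (by norm_num)]
      norm_num
    rw [e1, e2, ← Real.rpow_add (by norm_num), ← Real.rpow_add (by norm_num)]
    congr 1
    ring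
  rw [mul_assoc, h1]
  have h2 : (0 : ℝ) ≤ (2 : ℝ) ^ (s * ((m : ℝ) - 2)) := (Real.rpow_pos_of_pos (by norm_num) _).le
  gcongr

theorem exhaust2 {K S0 : Set ℂ} (hQ : S0 ⊆ Q) (hK : ∀ x ∈ S0,
    ∃ r : ℝ, 0 < r ∧ ∃ u : ℂ, ‖u‖ = 1 ∧ squareBoundary x r u ⊆ K)
    (L : ℕ → Set ℂ) (hL : ∀ i, Bornology.IsBounded (L i)) (hKL : K ⊆ ⋃ i, L i) :
    ∃ S : ℕ → Set ℂ, (⋃ n, S n = S0) ∧ ∀ n, ∃ c : ℝ, 0 < c ∧ Cells (accumulate L n) (S n) c := by
  set S : ℕ → Set ℂ := fun n => {x | x ∈ S0 ∧ ∃ r θ : ℝ, 1 / ((n : ℝ) + 1) ≤ r ∧ 0 ≤ θ ∧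
    θ ≤ Real.pi / 2 ∧ ∀ i : Fin 4, 1 ≤ volume {t : ℝ | side x r θ i t ∈ accumulate L n}} with hS
  have hUn : ⋃ n, S n = S0 := by
    apply Subset.antisymm (iUnion_subset fun n x hx => hx.1)
    intro x hx
    obtain ⟨r, hr, u, hu, hsq⟩ := hK x hx
    obtain ⟨θ, h1, h2, k, hk⟩ := first_quadrant hu
    have hside : ∀ i : Fin 4, ∃ n, 1 ≤ volume {t : ℝ | side x r θ i t ∈ accumulate L n} := by
      intro i
      have hm : Monotone fun n => {t : ℝ | side x r θ i t ∈ accumulate L n} :=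
        fun a b hab t ht => monotone_accumulate hab ht
      have hc : Icc (-1 : ℝ) 1 ⊆ ⋃ n, {t : ℝ | side x r θ i t ∈ accumulate L n} := by
        intro t ht
        have h3 := hKL (hsq (side_mem (x := x) (r := r) hk i (abs_le.2 ht)))
        rw [← iUnion_accumulate] at h3
        obtain ⟨n, hn⟩ := mem_iUnion.1 h3
        exact mem_iUnion.2 ⟨n, hn⟩
      have h4 := measure_mono (μ := volume) hc
      rw [Real.volume_Icc, hm.measure_iUnion] at h4
      have h5 : (1 : ENNReal) < ⨆ n, volume {t : ℝ | side x r θ i t ∈ accumulate L n} := by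
        refine lt_of_lt_of_le ?_ h4
        rw [← ENNReal.ofReal_one]
        apply (ENNReal.ofReal_lt_ofReal_iff (by norm_num)).2
        norm_num
      obtain ⟨n, hn⟩ := lt_iSup_iff.1 h5
      exact ⟨n, hn.le⟩
    choose n hn using hside
    obtain ⟨n0, hn0⟩ := exists_nat_one_div_lt hr
    set M := (n 0 + n 1 + n 2 + n 3) + n0 with hM
    rw [mem_iUnion]
    refine ⟨M, hx, r, θ, ?_, h1, h2, fun i => (hn i).trans (measure_mono ?_)⟩
    · refine le_trans ?_ hn0.le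
      apply one_div_le_one_div_of_le (by positivity)
      have : (n0 : ℝ) ≤ M := by
        have : n0 ≤ M := by omega
        exact_mod_cast this
      linarith
    · intro t ht
      have hi : n i ≤ M := by
        fin_cases i <;> simp [hM] <;> omega
      exact monotone_accumulate hi ht
  refine ⟨S, hUn, fun n => ?_⟩
  have hbd : Bornology.IsBounded (accumulate L n) := by
    rw [accumulate_def]
    exact (Bornology.isBounded_biUnion (finite_Iic n)).2 fun i _ => hL i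
  obtain ⟨R, hR⟩ := hbd.exists_norm_le
  obtain ⟨c, hc, hcell⟩ := cells_lower2 (K := accumulate L n) (R := max R 0)
    (ρ := 1 / ((n : ℝ) + 1)) (le_max_right _ _) (fun y hy => (hR y hy).trans (le_max_left _ _))
    (by positivity) (S := S n) (fun x hx => ⟨(hQ hx.1).1, (hQ hx.1).2, hx.2⟩)
  exact ⟨c, hc, hcell⟩

theorem Q_bounded : Bornology.IsBounded Q := by
  refine (Metric.isBounded_closedBall (x := (0 : ℂ)) (r := 2)).subset fun x hx => ?_
  rw [mem_closedBall_zero_iff]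
  have h1 := Complex.norm_le_abs_re_add_abs_im x
  rw [abs_of_nonneg hx.1.1, abs_of_nonneg hx.2.1] at h1
  linarith [hx.1.2, hx.2.2]

/-- the lower box dimension -/
theorem lower {K S0 : Set ℂ} (hQ : S0 ⊆ Q) (hne : S0.Nonempty) (hKb : Bornology.IsBounded K)
    (hK : ∀ x ∈ S0, ∃ r : ℝ, 0 < r ∧ ∃ u : ℂ, ‖u‖ = 1 ∧ squareBoundary x r u ⊆ K) {s : ℝ}
    (hs : ENNReal.ofReal s ≤ dimH S0) : ((1 + 3 / 8 * s : ℝ) : EReal) ≤ lowerBoxDim K := by
  obtain ⟨S, h1, h2⟩ := exhaust2 hQ hK (fun _ => K) (fun _ => hKb)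
    (fun y hy => mem_iUnion.2 ⟨0, hy⟩)
  have hacc : ∀ n, accumulate (fun _ : ℕ => K) n = K := fun n => by
    ext y
    rw [mem_accumulate]
    exact ⟨fun ⟨_, _, h⟩ => h, fun h => ⟨0, Nat.zero_le _, h⟩⟩
  simp only [hacc] at h2
  have hSQ : ∀ n, S n ⊆ Q := fun n => (h1 ▸ subset_iUnion S n).trans hQ
  by_contra hcon
  push Not at hcon
  obtain ⟨q, hq1, hq2⟩ := EReal.lt_iff_exists_real_btwn.1 hcon
  have hq3 : q < 1 + 3 / 8 * s := by exact_mod_cast hq2
  rcases lt_or_ge q 1 with hq | hq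
  · obtain ⟨x, hx⟩ := hne
    rw [← h1] at hx
    obtain ⟨n, hn⟩ := mem_iUnion.1 hx
    obtain ⟨c, hc, hC⟩ := h2 n
    have h3 := lower_of hKb (c := c * (2 : ℝ) ^ (-(6 * (0 : ℝ)))) (a := 1 + 3 / 8 * 0)
      (mul_pos hc (Real.rpow_pos_of_pos (by norm_num) _)) (by norm_num)
      (Eventually.of_forall fun m => pp_of hc hC (cnt_0 (hSQ n) ⟨x, hn⟩ m))
    have h4 := h3.trans_lt hq1
    have h5 : (1 : ℝ) + 3 / 8 * 0 < q := by exact_mod_cast h4
    linarith
  · set s' : ℝ := (q - 1) * 8 / 3 with hs'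
    have hs0 : 0 ≤ s' := by rw [hs']; linarith
    have hs1 : s' < s := by rw [hs']; linarith
    have h3 : ENNReal.ofReal s' < dimH S0 :=
      ((ENNReal.ofReal_lt_ofReal_iff (by linarith)).2 hs1).trans_le hs
    rw [← h1, dimH_iUnion] at h3
    obtain ⟨n, hn⟩ := lt_iSup_iff.1 h3
    obtain ⟨c, hc, hC⟩ := h2 n
    have h4 := lower_of hKb (c := c * (2 : ℝ) ^ (-(6 * s'))) (a := 1 + 3 / 8 * s')
      (mul_pos hc (Real.rpow_pos_of_pos (by norm_num) _)) (by linarith)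
      ((cnt_H (hSQ n) hs0 hn).mono fun m hm => pp_of hc hC hm)
    have h5 := h4.trans_lt hq1
    have h6 : (1 : ℝ) + 3 / 8 * s' < q := by exact_mod_cast h5
    rw [hs'] at h6
    linarith

/-- the packing dimension -/
theorem packing {K S0 : Set ℂ} (hQ : S0 ⊆ Q) (hne : S0.Nonempty)
    (hK : ∀ x ∈ S0, ∃ r : ℝ, 0 < r ∧ ∃ u : ℂ, ‖u‖ = 1 ∧ squareBoundary x r u ⊆ K) {s : ℝ}
    (hs : (s : EReal) ≤ packingDim S0) : ((1 + 3 / 8 * s : ℝ) : EReal) ≤ packingDim K := by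
  apply le_sInf
  rintro d ⟨L, hL, hKL, rfl⟩
  obtain ⟨S, h1, h2⟩ := exhaust2 hQ hK L hL hKL
  have hSQ : ∀ n, S n ⊆ Q := fun n => (h1 ▸ subset_iUnion S n).trans hQ
  have hbd : ∀ n, Bornology.IsBounded (accumulate L n) := fun n => by
    rw [accumulate_def]
    exact (Bornology.isBounded_biUnion (finite_Iic n)).2 fun i _ => hL i
  by_contra hcon
  push Not at hcon
  obtain ⟨q, hq1, hq2⟩ := EReal.lt_iff_exists_real_btwn.1 hcon
  have hq3 : q < 1 + 3 / 8 * s := by exact_mod_cast hq2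
  rcases lt_or_ge q 1 with hq | hq
  · obtain ⟨x, hx⟩ := hne
    rw [← h1] at hx
    obtain ⟨n, hn⟩ := mem_iUnion.1 hx
    obtain ⟨c, hc, hC⟩ := h2 n
    have h3 := upper_of (hbd n) (c := c * (2 : ℝ) ^ (-(6 * (0 : ℝ)))) (a := 1 + 3 / 8 * 0)
      (mul_pos hc (Real.rpow_pos_of_pos (by norm_num) _)) (by norm_num)
      (Eventually.of_forall fun m => pp_of hc hC (cnt_0 (hSQ n) ⟨x, hn⟩ m)).frequently
    have h4 := (h3.trans (union_upper L hL n)).trans_lt hq1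
    have h5 : (1 : ℝ) + 3 / 8 * 0 < q := by exact_mod_cast h4
    linarith
  · set s' : ℝ := (q - 1) * 8 / 3 with hs'
    have hs0 : 0 ≤ s' := by rw [hs']; linarith
    have hs1 : s' < s := by rw [hs']; linarith
    have h3 : (s' : EReal) < packingDim S0 :=
      (EReal.coe_lt_coe_iff.2 hs1).trans_le hs
    have h4 : packingDim S0 ≤ ⨆ n, upperBoxDim (S n) :=
      sInf_le ⟨S, fun n => Q_bounded.subset (hSQ n), h1.ge, rfl⟩
    obtain ⟨n, hn⟩ := lt_iSup_iff.1 (h3.trans_le h4)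
    obtain ⟨c, hc, hC⟩ := h2 n
    have h5 := upper_of (hbd n) (c := c * (2 : ℝ) ^ (-(6 * s'))) (a := 1 + 3 / 8 * s')
      (mul_pos hc (Real.rpow_pos_of_pos (by norm_num) _)) (by linarith)
      ((cnt_P (hSQ n) hs0 hn).mono fun m hm => pp_of hc hC hm)
    have h6 := (h5.trans (union_upper L hL n)).trans_lt hq1
    have h7 : (1 : ℝ) + 3 / 8 * s' < q := by exact_mod_cast h6
    rw [hs'] at h7
    linarith

end Pool.Agent.KS6_90.SQG
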