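import Pool.Agent.KS6_90.SQG.Core2
import Pool.Graph.R_seed8.V11202.SQ.Exh

/-!
From square boundaries in the plane to the discrete core, for an arbitrary set of centres.
-/

set_option autoImplicit false

open MeasureTheory Set

namespace Pool.Agent.KS6_90.SQG

open Pool.Agent.V11202.SQ

/-- the number of cells of a set holding large parts of the sides of many squares -/
theorem cells_lower2 {K : Set ℂ} {R ρ : ℝ} (hR : 0 ≤ R) (hK : ∀ y ∈ K, ‖y‖ ≤ R) (hρ : 0 < ρ)
    {S : Set ℂ} (hS : ∀ x ∈ S, (0 ≤ x.re ∧ x.re ≤ 1) ∧ (0 ≤ x.im ∧ x.im ≤ 1) ∧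
      ∃ r θ : ℝ, ρ ≤ r ∧ 0 ≤ θ ∧ θ ≤ Real.pi / 2 ∧
        ∀ i : Fin 4, 1 ≤ volume {t : ℝ | side x r θ i t ∈ K}) :
    ∃ c : ℝ, 0 < c ∧ ∀ (m : ℕ) (X G : Finset (ℤ × ℤ)), (∀ z ∈ X, ∃ x ∈ S, pc m x = z) →
      (∀ y ∈ K, pc m y ∈ G) →
      c * ((X.card : ℝ) ^ 3 * (4 ^ m) ^ 4) ≤ (G.card : ℝ) ^ 8 * (m + 1) ^ 20 := by
  classical
  obtain ⟨c, hc, hcore⟩ := core2 (κ := ρ / 2) (R := R + 1) (by positivity) (by linarith)
  refine ⟨c, hc, fun m X G hXS hG => ?_⟩
  have h2 : (0 : ℝ) < 2 ^ m := by positivity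
  have h21 : (1 : ℝ) ≤ 2 ^ m := one_le_pow₀ (by norm_num)
  have hXex : ∀ z : ℤ × ℤ, ∃ x : ℂ, z ∈ X → x ∈ S ∧ pc m x = z := by
    intro z
    by_cases hz : z ∈ X
    · obtain ⟨x, hx⟩ := hXS z hz
      exact ⟨x, fun _ => hx⟩
    · exact ⟨0, fun h => absurd h hz⟩
  choose xx hxx using hXex
  -- data
  have hdat : ∀ z : ℤ × ℤ, ∃ r θ : ℝ, z ∈ X → ρ ≤ r ∧ 0 ≤ θ ∧ θ ≤ Real.pi / 2 ∧
        ∀ i : Fin 4, 1 ≤ volume {t : ℝ | side (xx z) r θ i t ∈ K} := by
    intro z
    by_cases hz : z ∈ X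
    · obtain ⟨-, -, r, θ, h⟩ := hS (xx z) (hxx z hz).1
      exact ⟨r, θ, fun _ => h⟩
    · exact ⟨0, 0, fun h => absurd h hz⟩
  choose r θ hrθ using hdat
  set E : Fin 4 → ℤ × ℤ → Finset (ℤ × ℤ) := fun i z => G.filter
    (fun w => ∃ t : ℝ, side (xx z) (r z) (θ z) i t ∈ K ∧ pc m (side (xx z) (r z) (θ z) i t) = w)
    with hE
  apply hcore m X G (fun z => (xx z).re) (fun z => (xx z).im) θ r E
  · intro z hz
    obtain ⟨h1, h3⟩ := hxx z hz
    obtain ⟨a, b, -⟩ := hS _ h1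
    refine ⟨?_, ?_, a, b⟩
    · exact congrArg Prod.fst h3
    · exact congrArg Prod.snd h3
  · intro z hz
    obtain ⟨-, h1, h3, -⟩ := hrθ z hz
    exact ⟨h1, h3⟩
  · intro i z _
    exact Finset.filter_subset _ _
  · -- long sides give many cells
    intro i z hz
    obtain ⟨hr, -, -, hvol⟩ := hrθ z hz
    have hr0 : 0 < r z := by linarith
    have h1 := hvol i
    have hcov : {t : ℝ | side (xx z) (r z) (θ z) i t ∈ K} ⊆
        ⋃ w ∈ E i z, {t : ℝ | pc m (side (xx z) (r z) (θ z) i t) = w} := by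
      intro t ht
      rw [mem_iUnion₂]
      refine ⟨pc m (side (xx z) (r z) (θ z) i t), ?_, rfl⟩
      rw [hE, Finset.mem_filter]
      exact ⟨hG _ ht, t, ht, rfl⟩
    have hd : ∀ w ∈ E i z, volume {t : ℝ | pc m (side (xx z) (r z) (θ z) i t) = w} ≤
        ENNReal.ofReal (2 / 2 ^ m / ρ) := by
      intro w _
      refine (Real.volume_le_diam _).trans (Metric.ediam_le ?_)
      intro t ht t' ht'
      have h4 := pc_dist (ht.trans ht'.symm)
      rw [side_sub _ hr0.le] at h4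
      rw [edist_dist, Real.dist_eq]
      apply ENNReal.ofReal_le_ofReal
      rw [le_div_iff₀ hρ]
      have h5 := abs_nonneg (t - t')
      nlinarith
    have h6 : (1 : ENNReal) ≤ ENNReal.ofReal ((E i z).card * (2 / 2 ^ m / ρ)) := by
      refine h1.trans ((measure_mono hcov).trans ((measure_biUnion_finset_le _ _).trans ?_))
      refine (Finset.sum_le_sum hd).trans (le_of_eq ?_)
      rw [Finset.sum_const, nsmul_eq_mul, ENNReal.ofReal_mul (by positivity),
        ENNReal.ofReal_natCast]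
    rw [← ENNReal.ofReal_one, ENNReal.ofReal_le_ofReal_iff (by positivity)] at h6
    have h7 : ((E i z).card : ℝ) * (2 / 2 ^ m / ρ) = ((E i z).card : ℝ) * 2 / (2 ^ m * ρ) := by
      field_simp
    rw [h7, le_div_iff₀ (by positivity)] at h6
    linarith
  · intro i z hz w hw
    obtain ⟨-, t, htK, htw⟩ := Finset.mem_filter.1 hw
    have e1 : ⌊(2 : ℝ) ^ m * (side (xx z) (r z) (θ z) i t).re⌋ = w.1 := congrArg Prod.fst htw
    have e2 : ⌊(2 : ℝ) ^ m * (side (xx z) (r z) (θ z) i t).im⌋ = w.2 := congrArg Prod.snd htw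
    have hn := hK _ htK
    have hre := (Complex.abs_re_le_norm _).trans hn
    have him := (Complex.abs_im_le_norm _).trans hn
    set y := side (xx z) (r z) (θ z) i t with hy
    have a1 := Int.floor_le ((2 : ℝ) ^ m * y.re)
    have a2 := Int.lt_floor_add_one ((2 : ℝ) ^ m * y.re)
    have b1 := Int.floor_le ((2 : ℝ) ^ m * y.im)
    have b2 := Int.lt_floor_add_one ((2 : ℝ) ^ m * y.im)
    rw [e1] at a1 a2
    rw [e2] at b1 b2
    refine ⟨?_, ?_, ?_⟩
    · unfold InStrip pos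
      set φ : ℝ := θ z + (i : ℕ) * (Real.pi / 2) with hφ
      have hcs := Real.cos_sq_add_sin_sq φ
      have g1 : y.re * Real.cos φ + y.im * Real.sin φ =
          (xx z).re * Real.cos φ + (xx z).im * Real.sin φ + r z := by
        rw [hy, side_re, side_im, ← hφ]
        linear_combination (r z) * hcs
      have g2 : (w.1 : ℝ) * Real.cos φ + (w.2 : ℝ) * Real.sin φ -
          2 ^ m * ((xx z).re * Real.cos φ + (xx z).im * Real.sin φ + r z) =
          ((w.1 : ℝ) - 2 ^ m * y.re) * Real.cos φ + ((w.2 : ℝ) - 2 ^ m * y.im) * Real.sin φ := by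
        rw [← g1]; ring
      rw [g2]
      have g3 : |((w.1 : ℝ) - 2 ^ m * y.re) * Real.cos φ| ≤ 1 := by
        rw [abs_mul]
        have u1 : |(w.1 : ℝ) - 2 ^ m * y.re| ≤ 1 := by rw [abs_le]; constructor <;> linarith
        have u2 := Real.abs_cos_le_one φ
        have u3 := abs_nonneg ((w.1 : ℝ) - 2 ^ m * y.re)
        have u4 := abs_nonneg (Real.cos φ)
        nlinarith
      have g4 : |((w.2 : ℝ) - 2 ^ m * y.im) * Real.sin φ| ≤ 1 := by
        rw [abs_mul]
        have u1 : |(w.2 : ℝ) - 2 ^ m * y.im| ≤ 1 := by rw [abs_le]; constructor <;> linarith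
        have u2 := Real.abs_sin_le_one φ
        have u3 := abs_nonneg ((w.2 : ℝ) - 2 ^ m * y.im)
        have u4 := abs_nonneg (Real.sin φ)
        nlinarith
      refine (abs_add_le _ _).trans ?_
      linarith
    · rw [abs_le] at hre ⊢
      constructor <;> nlinarith [hre.1, hre.2]
    · rw [abs_le] at him ⊢
      constructor <;> nlinarith [him.1, him.2]

end Pool.Agent.KS6_90.SQG
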